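import Pool.Agent.H20.Tut2

namespace Pool.Agent.Results.MP_8e541a_co.Yes

open Pool.Agent.H20.Tut Classical

theorem result (V E : Type) [Fintype V] [Fintype E] (a b : E → V) (hV : 2 ≤ Nat.card V)
    (hc : comps a b Finset.univ = 1) (s : V) :
    tutte a b ∈ Ideal.span {T | ∃ W : Finset V, W.Nonempty ∧ W ⊆ nbr a b s ∧
      T = tutteContr a b (insert s W)} :=
  main a b s hV hc

end Pool.Agent.Results.MP_8e541a_co.Yes
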